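import Pool.Agent.T2H12.AF.Stm

/-!
# Package BADP of the project AF
-/

set_option autoImplicit false

namespace Pool.Agent.T2H12.AF

open Finset
open scoped Classical

namespace BADP

theorem card_pf (N : ℕ) (hN : N ≠ 0) : 2 ^ N.primeFactors.card ≤ N := by
  have h1 : ∏ p ∈ N.primeFactors, p ≤ N := Nat.le_of_dvd (Nat.pos_of_ne_zero hN) (Nat.prod_primeFactors_dvd N)
  refine le_trans ?_ h1
  exact Finset.pow_card_le_prod N.primeFactors (fun p => p) 2 fun p hp => (Nat.prime_of_mem_primeFactors hp).two_le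

theorem bound (N : ℤ) (hN : N ≠ 0) (M : ℝ) (hM : 2 ≤ M) (h : |(N : ℝ)| ≤ 2 * M ^ 2) :
    (N.natAbs.primeFactors.card : ℝ) ≤ 5 * Real.log M := by
  have h0 : N.natAbs ≠ 0 := Int.natAbs_ne_zero.2 hN
  have h1 : ((2 : ℝ)) ^ N.natAbs.primeFactors.card ≤ 2 * M ^ 2 := by
    have h2 : ((2 ^ N.natAbs.primeFactors.card : ℕ) : ℝ) ≤ (N.natAbs : ℕ) := by
      exact_mod_cast card_pf _ h0
    have h3 : ((N.natAbs : ℕ) : ℝ) = |(N : ℝ)| := by
      rw [Nat.cast_natAbs, Int.cast_abs]
    rw [h3] at h2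
    push_cast at h2
    exact h2.trans h
  have hM0 : 0 < M := by linarith
  have h4 := Real.log_le_log (by positivity) h1
  rw [Real.log_pow, Real.log_mul (by norm_num) (by positivity), Real.log_pow] at h4
  have h5 : Real.log 2 ≤ Real.log M := Real.log_le_log (by norm_num) hM
  have h6 := Real.log_two_gt_d9
  push_cast at h4
  by_contra hcon
  push Not at hcon
  have h7 : (5 * Real.log M) * Real.log 2 < N.natAbs.primeFactors.card * Real.log 2 :=
    mul_lt_mul_of_pos_right hcon (by linarith)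
  have h8 : 0 < Real.log M := by linarith
  nlinarith

end BADP

open BADP in
theorem pBADP : S_BADP := by
  intro n l b M hM hl hb hlb
  set N : Fin n × Fin n → ℤ := fun q => l q.1 * b q.2 - l q.2 * b q.1 with hNdef
  have hM0 : 0 ≤ M := by linarith
  have hNb : ∀ q, |(N q : ℝ)| ≤ 2 * M ^ 2 := by
    intro q
    simp only [hNdef]
    push_cast
    have h1 : |(l q.1 : ℝ) * b q.2| ≤ M * M := by
      rw [abs_mul]
      exact mul_le_mul (hl _) (hb _) (abs_nonneg _) hM0
    have h2 : |(l q.2 : ℝ) * b q.1| ≤ M * M := by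
      rw [abs_mul]
      exact mul_le_mul (hl _) (hb _) (abs_nonneg _) hM0
    have h3 := abs_sub (l q.1 * b q.2 : ℝ) (l q.2 * b q.1)
    nlinarith
  set Q : Finset ℕ := (Finset.univ.filter fun q : Fin n × Fin n => q.1 ≠ q.2).biUnion
    fun q => (N q).natAbs.primeFactors with hQ
  refine ⟨Q, ?_, ?_, ?_⟩
  · intro q hq
    rw [hQ, Finset.mem_biUnion] at hq
    obtain ⟨x, _, hx⟩ := hq
    exact Nat.prime_of_mem_primeFactors hx
  · have h1 : (Q.card : ℝ) ≤ ∑ q ∈ (Finset.univ.filter fun q : Fin n × Fin n => q.1 ≠ q.2),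
        ((N q).natAbs.primeFactors.card : ℝ) := by
      have h2 : Q.card ≤ _ := Finset.card_biUnion_le
      exact_mod_cast h2
    have h2 : ∑ q ∈ (Finset.univ.filter fun q : Fin n × Fin n => q.1 ≠ q.2),
        ((N q).natAbs.primeFactors.card : ℝ) ≤
        ∑ q ∈ (Finset.univ.filter fun q : Fin n × Fin n => q.1 ≠ q.2), 5 * Real.log M := by
      apply Finset.sum_le_sum
      intro q hq
      apply bound _ _ M hM (hNb q)
      intro h0
      exact hlb q.1 q.2 (Finset.mem_filter.1 hq).2 (sub_eq_zero.1 h0)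
    have hlog : 0 ≤ Real.log M := Real.log_nonneg (by linarith)
    rw [Finset.sum_const, nsmul_eq_mul] at h2
    have h3 : ((Finset.univ.filter fun q : Fin n × Fin n => q.1 ≠ q.2).card : ℝ) ≤ (n : ℝ) ^ 2 := by
      have h4 : (Finset.univ.filter fun q : Fin n × Fin n => q.1 ≠ q.2).card ≤ n ^ 2 := by
        refine (Finset.card_le_univ _).trans (le_of_eq ?_)
        rw [Fintype.card_prod, Fintype.card_fin, sq]
      exact_mod_cast h4
    have h5 := mul_le_mul_of_nonneg_right h3 (by positivity : (0 : ℝ) ≤ 5 * Real.log M)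
    linarith
  · intro p hp hpQ z i j hi hj
    by_contra hij
    apply hpQ
    rw [hQ, Finset.mem_biUnion]
    refine ⟨(i, j), Finset.mem_filter.2 ⟨Finset.mem_univ _, hij⟩, ?_⟩
    have hne : N (i, j) ≠ 0 := fun h0 => hlb i j hij (sub_eq_zero.1 h0)
    rw [Nat.mem_primeFactors]
    refine ⟨hp, ?_, Int.natAbs_ne_zero.2 hne⟩
    rw [← Int.natCast_dvd]
    have h1 : N (i, j) = l i * (l j * z + b j) - l j * (l i * z + b i) := by
      simp only [hNdef]
      ring
    rw [h1]
    exact dvd_sub (Dvd.dvd.mul_left hj _) (Dvd.dvd.mul_left hi _)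

end Pool.Agent.T2H12.AF
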