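import Pool.Agent.T2H12.AF.Stm

set_option autoImplicit false

namespace Pool.Agent.T2H12.AF

open Finset
open scoped Classical

namespace CASE1

lemma concl_mono (k m : ℕ) (ε c c' : ℝ) (X : Finset ℤ) (hc : c' ≤ c) (h : Concl k m ε c X) :
    Concl k m ε c' X := by
  rcases h with h | h
  · left
    refine le_trans ?_ h
    exact mul_le_mul_of_nonneg_right hc (by positivity)
  · right
    intro B hB
    refine le_trans ?_ (h B hB)
    have h1 : 0 ≤ (X.card : ℝ) ^ ((m : ℝ) - ε) := by positivity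
    have h2 : 0 ≤ (B.card : ℝ) ^ (1 - ε) := by positivity
    exact mul_le_mul_of_nonneg_right (mul_le_mul_of_nonneg_right hc h1) h2

lemma structure_lemma (S : Finset (ℤ × ℤ)) (s₀ : ℤ × ℤ) (h0 : s₀ ∈ S) (hne : ∀ s ∈ S, s.1 ≠ 0)
    (hp : ∀ s ∈ S, ∀ t ∈ S, Prop2 s t) :
    ∃ (a b : ℤ) (t : ℤ × ℤ → ℤ), a ≠ 0 ∧ ∀ s ∈ S, t s ≠ 0 ∧ s.1 = t s * a ∧ s.2 = t s * b := by
  have hg : 0 < Int.gcd s₀.1 s₀.2 := Int.gcd_pos_of_ne_zero_left _ (hne s₀ h0)
  obtain ⟨a, b, hab, ha, hb⟩ := Int.exists_gcd_one hg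
  have hg' : ((Int.gcd s₀.1 s₀.2 : ℕ) : ℤ) ≠ 0 := by exact_mod_cast hg.ne'
  set g : ℤ := ((Int.gcd s₀.1 s₀.2 : ℕ) : ℤ) with hgdef
  have ha0 : a ≠ 0 := by
    intro h
    apply hne s₀ h0
    rw [ha, h, zero_mul]
  have key : ∀ s ∈ S, ∃ t : ℤ, t ≠ 0 ∧ s.1 = t * a ∧ s.2 = t * b := by
    intro s hs
    have h1 : s.1 * s₀.2 = s₀.1 * s.2 := hp s hs s₀ h0
    rw [ha, hb] at h1
    have h2 : s.1 * b = a * s.2 := by
      apply mul_right_cancel₀ hg'
      linear_combination h1
    have h3 : a ∣ s.1 * b := ⟨s.2, h2⟩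
    have h4 : a ∣ s.1 := Int.dvd_of_dvd_mul_left_of_gcd_one h3 hab
    obtain ⟨t, ht⟩ := h4
    refine ⟨t, ?_, by rw [ht]; ring, ?_⟩
    · rintro rfl
      apply hne s hs
      rw [ht, mul_zero]
    · apply mul_left_cancel₀ ha0
      rw [← h2, ht]
      ring
  choose! t ht using key
  exact ⟨a, b, t, ha0, ht⟩

end CASE1

open CASE1 in
theorem pCASE1 (hMULT : S_MULT) (hSMALL : S_SMALL) : S_CASE1 := by
  intro k m hk hm ε hε hε1
  obtain ⟨K₀, δ₁, c₁, hδ₁, hc₁, hM⟩ := hMULT k m hk hm ε hε hε1
  set K : ℕ := max K₀ 1 with hK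
  have hK1 : 1 ≤ K := le_max_right _ _
  have hK0 : K₀ ≤ K := le_max_left _ _
  set δ : ℝ := min δ₁ (1 / 2) with hδdef
  have hδ : 0 < δ := lt_min hδ₁ (by norm_num)
  have hδ1 : δ ≤ δ₁ := min_le_left _ _
  have hδh : δ ≤ 1 / 2 := min_le_right _ _
  have hKr : (1 : ℝ) ≤ K := by exact_mod_cast hK1
  set Z₀ : ℝ := (2 * K : ℝ) ^ (1 / δ) with hZ₀
  have hZpos : 0 < Z₀ := by positivity
  obtain ⟨c', hc', hS⟩ := hSMALL k m hk ε (K * Z₀) hε hε1
  refine ⟨K, δ, min c₁ c', 1, hK1, hδ, lt_min hc₁ hc', le_rfl, ?_⟩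
  intro A hA S hScard hSne hSle hSp
  have hSnonempty : S.Nonempty := by
    rw [← Finset.card_pos, hScard]; omega
  obtain ⟨s₀, hs₀⟩ := hSnonempty
  obtain ⟨a, b, t, ha0, ht⟩ := structure_lemma S s₀ hs₀ hSne hSp
  set X' : Finset ℤ := (S ×ˢ A).image (fun q => q.1.1 * q.2 + q.1.2) with hX'
  have hmem : ∀ s ∈ S, ∀ x ∈ A, s.1 * x + s.2 ∈ X' := by
    intro s hs x hx
    rw [hX', Finset.mem_image]
    exact ⟨(s, x), Finset.mem_product.2 ⟨hs, hx⟩, rfl⟩
  have hAX : A.card ≤ X'.card := by
    have h1 : (A.image (fun x => s₀.1 * x + s₀.2)).card = A.card := by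
      apply Finset.card_image_of_injective
      intro x y hxy
      have : s₀.1 * x = s₀.1 * y := by
        have := hxy
        simp only at this
        linarith
      exact mul_left_cancel₀ (hSne s₀ hs₀) this
    rw [← h1]
    apply Finset.card_le_card
    intro y hy
    rw [Finset.mem_image] at hy
    obtain ⟨x, hx, rfl⟩ := hy
    exact hmem s₀ hs₀ x hx
  have hXK : X'.card ≤ K * A.card := by
    rw [← hScard, ← Finset.card_product]
    exact Finset.card_image_le
  have hApos : 0 < A.card := Finset.card_pos.2 hA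
  have hX'ne : X'.Nonempty := by
    rw [← Finset.card_pos]; omega
  refine ⟨X', hX'ne, ?_, ?_, ?_⟩
  · intro x hx
    rw [hX', Finset.mem_image] at hx
    obtain ⟨⟨s, y⟩, hsy, rfl⟩ := hx
    rw [Finset.mem_product] at hsy
    exact ⟨s, hsy.1, y, hsy.2, rfl⟩
  · rw [one_mul]; exact_mod_cast hAX
  · have hAr : (1 : ℝ) ≤ A.card := by exact_mod_cast hApos
    have hAXr : (A.card : ℝ) ≤ X'.card := by exact_mod_cast hAX
    have hXKr : (X'.card : ℝ) ≤ K * A.card := by exact_mod_cast hXK
    have hXr : (1 : ℝ) ≤ X'.card := hAr.trans hAXr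
    by_cases hbig : (A.card : ℝ) ≤ Z₀
    · apply concl_mono k m ε c' _ X' (min_le_right _ _)
      apply hS X' hX'ne
      refine hXKr.trans ?_
      gcongr
    · rw [not_le] at hbig
      apply concl_mono k m ε c₁ _ X' (min_le_left _ _)
      set Y : Finset ℤ := (A.image (fun x => a * x + b)).erase 0 with hY
      apply hM X' hX'ne Y
      · rw [hY]; simp
      · -- the cardinality of Y
        have hinj : (A.image (fun x => a * x + b)).card = A.card := by
          apply Finset.card_image_of_injective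
          intro x y hxy
          have : a * x = a * y := by
            have := hxy
            simp only at this
            linarith
          exact mul_left_cancel₀ ha0 this
        have hYc : A.card - 1 ≤ Y.card := by
          rw [← hinj]
          exact Finset.pred_card_le_card_erase
        have hYr : (A.card : ℝ) - 1 ≤ Y.card := by
          have : A.card ≤ Y.card + 1 := by omega
          have : (A.card : ℝ) ≤ Y.card + 1 := by exact_mod_cast this
          linarith
        have hpow : 2 * (K : ℝ) ≤ (A.card : ℝ) ^ δ := by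
          have h1 : Z₀ ^ δ = 2 * K := by
            rw [hZ₀, ← Real.rpow_mul (by positivity), one_div, inv_mul_cancel₀ hδ.ne',
              Real.rpow_one]
          rw [← h1]
          exact Real.rpow_le_rpow hZpos.le hbig.le hδ.le
        have hA2 : (2 : ℝ) ≤ A.card := by
          have h1 : (A.card : ℝ) ^ δ ≤ (A.card : ℝ) ^ (1 : ℝ) :=
            Real.rpow_le_rpow_of_exponent_le hAr (by linarith)
          rw [Real.rpow_one] at h1
          nlinarith
        have h2 : (X'.card : ℝ) ^ (1 - δ₁) ≤ (X'.card : ℝ) ^ (1 - δ) :=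
          Real.rpow_le_rpow_of_exponent_le hXr (by linarith)
        have h3 : (X'.card : ℝ) ^ (1 - δ) ≤ (K * A.card : ℝ) ^ (1 - δ) :=
          Real.rpow_le_rpow (by positivity) hXKr (by linarith)
        have h4 : (K * A.card : ℝ) ^ (1 - δ) = (K : ℝ) ^ (1 - δ) * (A.card : ℝ) ^ (1 - δ) :=
          Real.mul_rpow (by positivity) (by positivity)
        have h5 : (K : ℝ) ^ (1 - δ) ≤ K := by
          have := Real.rpow_le_rpow_of_exponent_le hKr (show 1 - δ ≤ 1 by linarith)
          rwa [Real.rpow_one] at this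
        have h6 : (A.card : ℝ) ^ (1 - δ) * (A.card : ℝ) ^ δ = A.card := by
          rw [← Real.rpow_add (by linarith)]
          simp
        have h7 : 0 < (A.card : ℝ) ^ (1 - δ) := by positivity
        have h8 : (K : ℝ) * (A.card : ℝ) ^ (1 - δ) ≤ A.card / 2 := by
          nlinarith
        calc (X'.card : ℝ) ^ (1 - δ₁) ≤ (K : ℝ) ^ (1 - δ) * (A.card : ℝ) ^ (1 - δ) := by
              rw [← h4]; exact h2.trans h3
          _ ≤ (K : ℝ) * (A.card : ℝ) ^ (1 - δ) := by gcongr
          _ ≤ A.card / 2 := h8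
          _ ≤ (A.card : ℝ) - 1 := by linarith
          _ ≤ Y.card := hYr
      · intro y hy
        rw [hY, Finset.mem_erase, Finset.mem_image] at hy
        obtain ⟨-, x, hx, rfl⟩ := hy
        refine ⟨S.image t, ?_, ?_⟩
        · rw [Finset.card_image_of_injOn, hScard]
          · exact hK0
          · intro s hs s' hs' hss
            have e1 := ht s hs
            have e2 := ht s' hs'
            refine Prod.ext ?_ ?_
            · rw [e1.2.1, e2.2.1, hss]
            · rw [e1.2.2, e2.2.2, hss]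
        · intro l hl
          rw [Finset.mem_image] at hl
          obtain ⟨s, hs, rfl⟩ := hl
          obtain ⟨e0, e1, e2⟩ := ht s hs
          refine ⟨e0, ?_, ?_⟩
          · have h1 : |(t s : ℝ)| ≤ |(s.1 : ℝ)| := by
              have h2 : (s.1 : ℝ) = (t s : ℝ) * (a : ℝ) := by exact_mod_cast e1
              rw [h2, abs_mul]
              have h3 : (1 : ℝ) ≤ |(a : ℝ)| := by
                have := Int.one_le_abs ha0
                exact_mod_cast this
              have h4 : 0 ≤ |(t s : ℝ)| := abs_nonneg _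
              nlinarith
            have h5 := hSle s hs
            have h6 : (A.card : ℝ) ^ δ ≤ (X'.card : ℝ) ^ δ :=
              Real.rpow_le_rpow (by positivity) hAXr hδ.le
            have h7 : (X'.card : ℝ) ^ δ ≤ (X'.card : ℝ) ^ δ₁ :=
              Real.rpow_le_rpow_of_exponent_le hXr hδ1
            exact ((h1.trans h5).trans h6).trans h7
          · have h1 : t s * (a * x + b) = s.1 * x + s.2 := by
              rw [e1, e2]; ring
            rw [h1]
            exact hmem s hs x hx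

end Pool.Agent.T2H12.AF
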