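import Pool.Agent.T2H12.AF.Stm

/-!
# Package CASE2: pairwise non-proportional forms
-/

set_option autoImplicit false

namespace Pool.Agent.T2H12.AF

open Finset
open scoped Classical

namespace CASE2

theorem Concl_mono {k m : ℕ} {ε c c' : ℝ} {X : Finset ℤ} (h : Concl k m ε c X) (hc : c' ≤ c) :
    Concl k m ε c' X := by
  rcases h with h | h
  · left
    refine le_trans ?_ h
    exact mul_le_mul_of_nonneg_right hc (Real.rpow_nonneg (Nat.cast_nonneg _) _)
  · right
    intro B hB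
    refine le_trans ?_ (h B hB)
    apply mul_le_mul_of_nonneg_right _ (Real.rpow_nonneg (Nat.cast_nonneg _) _)
    exact mul_le_mul_of_nonneg_right hc (Real.rpow_nonneg (Nat.cast_nonneg _) _)

end CASE2

open CASE2 in
theorem pCASE2 (hDICH : S_DICH) (hLEV : S_LEV) (hBADP : S_BADP) (hSMALL : S_SMALL) : S_CASE2 := by
  intro k m hk hm ε hε hε1
  obtain ⟨L, δ₁, c₁, hL, hδ₁, hc₁, hD⟩ := hDICH k m hk hm ε hε hε1
  set L' : ℕ := ⌈2 * L⌉₊ with hL'
  have hL'1 : 2 * L ≤ L' := Nat.le_ceil _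
  have hL'2 : 1 ≤ L' := by
    have : (1 : ℝ) ≤ L' := by linarith
    exact_mod_cast this
  set n : ℕ := 4 * L' ^ 2 with hn
  have hn1 : 1 ≤ n := by nlinarith
  have hn1R : (1 : ℝ) ≤ n := by exact_mod_cast hn1
  set δ : ℝ := δ₁ / (20 * n ^ 2) with hδ
  have hδ0 : 0 < δ := by positivity
  set Z₀ : ℝ := max (4 * n ^ 2) (2 ^ (1 / δ)) with hZ₀
  obtain ⟨c₂, hc₂, hS⟩ := hSMALL k m hk ε (n * Z₀) hε hε1
  refine ⟨n, δ, min c₁ c₂, 2 * n, hn1, hδ0, lt_min hc₁ hc₂, by linarith, ?_⟩
  intro A hA l r hl hlM hrM hne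
  have hAc : 1 ≤ A.card := card_pos.2 hA
  have hAcR : (1 : ℝ) ≤ A.card := by exact_mod_cast hAc
  have hF : ∀ i, Set.InjOn (fun a : ℤ => l i * a + r i) (A : Set ℤ) := by
    intro i a _ b _ hab
    simp only at hab
    have h1 : l i * (a - b) = 0 := by linarith
    rcases mul_eq_zero.1 h1 with h | h
    · exact absurd h (hl i)
    · linarith
  obtain ⟨X₀, hX1, hX2, hX3⟩ := hLEV n L' hL'2 le_rfl A hA (fun i a => l i * a + r i) hF
  have hX2' : A.card ≤ n * X₀.card := by
    calc A.card = 1 * A.card := (one_mul _).symm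
      _ ≤ L' * A.card := Nat.mul_le_mul_right _ hL'2
      _ ≤ n * X₀.card := hX2
  have hX2R : (A.card : ℝ) ≤ n * X₀.card := by exact_mod_cast hX2'
  have hX0 : X₀.Nonempty := by
    rw [← card_pos]
    by_contra hcon
    have : X₀.card = 0 := by omega
    rw [this] at hX2'
    omega
  have hXup : (X₀.card : ℝ) ≤ n * A.card := by
    have h1 : X₀ ⊆ ((univ : Finset (Fin n)) ×ˢ A).image (fun s => l s.1 * s.2 + r s.1) := by
      intro x hx
      obtain ⟨i, a, ha, hia⟩ := hX1 x hx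
      rw [mem_image]
      exact ⟨(i, a), mem_product.2 ⟨mem_univ _, ha⟩, hia⟩
    have h2 := (card_le_card h1).trans card_image_le
    rw [card_product, card_univ, Fintype.card_fin] at h2
    exact_mod_cast h2
  by_cases hsm : (A.card : ℝ) ≤ Z₀
  · refine ⟨X₀, hX0, hX1, ?_, Concl_mono (hS X₀ hX0 ?_) (min_le_right _ _)⟩
    · have : 0 ≤ (X₀.card : ℝ) := Nat.cast_nonneg _
      nlinarith
    · exact hXup.trans (mul_le_mul_of_nonneg_left hsm (by linarith))
  push Not at hsm
  have hZ1 : (4 * n ^ 2 : ℝ) < A.card := (le_max_left _ _).trans_lt hsm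
  have hZ2 : (2 : ℝ) ^ (1 / δ) < A.card := (le_max_right _ _).trans_lt hsm
  -- the set `X'`
  set X' := X₀.erase 0 with hX'
  have hbig : (2 : ℝ) ≤ X₀.card := by
    by_contra hcon
    push Not at hcon
    nlinarith
  have hX'c : (X₀.card : ℝ) ≤ 2 * X'.card := by
    have h1 : X₀.card - 1 ≤ X'.card := pred_card_le_card_erase
    have h2 : (2 : ℕ) ≤ X₀.card := by exact_mod_cast hbig
    have h3 : X₀.card ≤ 2 * X'.card := by omega
    exact_mod_cast h3
  have hX'ne : X'.Nonempty := by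
    rw [← card_pos]
    have : (0 : ℝ) < X'.card := by linarith
    exact_mod_cast this
  have hAX' : (A.card : ℝ) ≤ 2 * n * X'.card := by
    have := mul_le_mul_of_nonneg_left hX'c (show (0 : ℝ) ≤ n by linarith)
    linarith
  refine ⟨X', hX'ne, fun x hx => hX1 x (mem_of_mem_erase hx), hAX', ?_⟩
  refine Concl_mono ?_ (min_le_left _ _)
  -- the bad primes
  set M : ℝ := (A.card : ℝ) ^ δ with hM
  have hM2 : 2 ≤ M := by
    have h1 : ((2 : ℝ) ^ (1 / δ)) ^ δ ≤ M :=
      Real.rpow_le_rpow (by positivity) hZ2.le hδ0.le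
    rw [← Real.rpow_mul (by norm_num), one_div_mul_cancel hδ0.ne', Real.rpow_one] at h1
    exact h1
  obtain ⟨Q, hQ1, hQ2, hQ3⟩ := hBADP n l r M hM2 hlM hrM hne
  have hlogA : 0 ≤ Real.log A.card := Real.log_nonneg hAcR
  have hlogM : Real.log M = δ * Real.log A.card := Real.log_rpow (by linarith) _
  have hlogX : Real.log A.card / 2 ≤ Real.log X'.card := by
    have hs : Real.sqrt A.card ≤ X'.card := by
      have h1 : 2 * (n : ℝ) ≤ Real.sqrt A.card := by
        apply Real.le_sqrt_of_sq_le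
        nlinarith
      have h2 : Real.sqrt A.card ^ 2 = A.card := Real.sq_sqrt (by linarith)
      have h3 : 0 ≤ Real.sqrt A.card := Real.sqrt_nonneg _
      by_contra hcon
      push Not at hcon
      have h4 : 2 * (n : ℝ) * X'.card < Real.sqrt A.card * Real.sqrt A.card := by
        have h5 : (0 : ℝ) ≤ X'.card := Nat.cast_nonneg _
        nlinarith
      nlinarith
    have h1 : Real.log (Real.sqrt A.card) ≤ Real.log X'.card :=
      Real.log_le_log (Real.sqrt_pos.2 (by linarith)) hs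
    rwa [Real.log_sqrt (by linarith)] at h1
  refine hD X' Q hX'ne (notMem_erase _ _) hQ1 ?_ ?_
  · refine hQ2.trans ?_
    rw [hlogM]
    have h1 : 5 * (n : ℝ) ^ 2 * (δ * Real.log A.card) = δ₁ * (Real.log A.card / 4) := by
      rw [hδ]
      field_simp
      ring
    rw [h1]
    apply mul_le_mul_of_nonneg_left _ hδ₁.le
    linarith
  · intro p hp hpQ
    have h1 := hX3 (fun x => (p : ℤ) ∣ x) (fun a _ i j hi hj => hQ3 p hp hpQ a i j hi hj)
    have h2 : (X'.filter fun a => (p : ℤ) ∣ a).card ≤ (X₀.filter fun a => (p : ℤ) ∣ a).card :=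
      card_le_card (filter_subset_filter _ (erase_subset _ _))
    have h1' : L' * (X₀.filter fun a => (p : ℤ) ∣ a).card ≤ X₀.card := by convert h1
    have h1R : (L' : ℝ) * (X₀.filter fun a => (p : ℤ) ∣ a).card ≤ X₀.card := by exact_mod_cast h1'
    have h2R : ((X'.filter fun a => (p : ℤ) ∣ a).card : ℝ) ≤
        (X₀.filter fun a => (p : ℤ) ∣ a).card := by exact_mod_cast h2
    have h3 : (0 : ℝ) ≤ (X₀.filter fun a => (p : ℤ) ∣ a).card := Nat.cast_nonneg _
    have h4 := mul_le_mul_of_nonneg_right hL'1 h3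
    have h5 := mul_le_mul_of_nonneg_left h2R (show (0 : ℝ) ≤ L by linarith)
    linarith

end Pool.Agent.T2H12.AF
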