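import Pool.Agent.T2H12.AF.Stm

/-!
# Package LEV: level sets
-/

set_option autoImplicit false

namespace Pool.Agent.T2H12.AF

open Finset
open scoped Classical

namespace LEV

theorem harm (n : ℕ) : ∑ i ∈ range n, 1 / ((i : ℝ) + 1) ≤ 2 * Real.sqrt n := by
  induction n with
  | zero => simp
  | succ n ih =>
    rw [sum_range_succ]
    push_cast
    have h0 : (0 : ℝ) ≤ n := Nat.cast_nonneg n
    set a := Real.sqrt n with ha
    set b := Real.sqrt ((n : ℝ) + 1) with hb
    have ha2 : a ^ 2 = n := Real.sq_sqrt h0
    have hb2 : b ^ 2 = n + 1 := Real.sq_sqrt (by linarith)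
    have ha0 : 0 ≤ a := Real.sqrt_nonneg _
    have hb1 : 1 ≤ b := by
      apply Real.le_sqrt_of_sq_le
      linarith
    have hab : a ≤ b := Real.sqrt_le_sqrt (by linarith)
    have h1 : 1 / ((n : ℝ) + 1) ≤ 2 * (b - a) := by
      rw [← hb2, div_le_iff₀ (by positivity)]
      have h2 : (b - a) * (b + a) = 1 := by nlinarith
      have h3 : b + a ≤ 2 * b ^ 2 := by nlinarith
      have h4 : 0 ≤ b - a := by linarith
      have h5 := mul_le_mul_of_nonneg_left h3 h4
      nlinarith
    linarith

end LEV

open LEV in
theorem pLEV : S_LEV := by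
  intro n L hL hn A hA F hF
  have hn0 : 0 < n := by nlinarith
  set P : Finset (Fin n × ℤ) := (univ : Finset (Fin n)) ×ˢ A with hP
  set r : ℤ → ℕ := fun x => (P.filter (fun s => F s.1 s.2 = x)).card with hr
  set X : Finset ℤ := P.image (fun s => F s.1 s.2) with hX
  have hPc : P.card = n * A.card := by simp [hP]
  have hrn : ∀ x, r x ≤ n := by
    intro x
    have h1 : (P.filter (fun s => F s.1 s.2 = x)).card ≤ (univ : Finset (Fin n)).card := by
      apply card_le_card_of_injOn (fun s => s.1) (fun s _ => by simp)
      intro s hs t ht hst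
      simp only [coe_filter, Set.mem_setOf_eq, hP, mem_product, mem_univ, true_and] at hs ht
      simp only at hst
      have h2 : s.2 = t.2 := by
        apply hF s.1 (mem_coe.2 hs.1) (mem_coe.2 ht.1)
        rw [hs.2, hst, ht.2]
      exact Prod.ext hst h2
    simpa [hr] using h1
  have hsum : ∑ x ∈ X, r x = n * A.card := by
    rw [← hPc]
    exact (card_eq_sum_card_image (fun s : Fin n × ℤ => F s.1 s.2) P).symm
  have hlev : ∑ i ∈ range n, (X.filter (fun x => i + 1 ≤ r x)).card = n * A.card := by
    rw [← hsum]
    simp only [card_filter]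
    rw [sum_comm]
    refine sum_congr rfl fun x _ => ?_
    rw [← card_filter]
    have : (range n).filter (fun i => i + 1 ≤ r x) = range (r x) := by
      ext i
      simp only [mem_filter, mem_range]
      have := hrn x
      omega
    rw [this, card_range]
  have hAc : 0 < A.card := card_pos.2 hA
  obtain ⟨i, hi, hij⟩ : ∃ i ∈ range n,
      L * A.card ≤ (i + 1) * (X.filter (fun x => i + 1 ≤ r x)).card := by
    by_contra hcon
    push Not at hcon
    have h1 : ∀ i ∈ range n, ((X.filter (fun x => i + 1 ≤ r x)).card : ℝ) <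
        L * A.card * (1 / ((i : ℝ) + 1)) := by
      intro i hi
      have h2 := hcon i hi
      have h3 : ((i : ℝ) + 1) * ((X.filter (fun x => i + 1 ≤ r x)).card : ℝ) < L * A.card := by
        exact_mod_cast h2
      have h4 : (0 : ℝ) < (i : ℝ) + 1 := by positivity
      rw [mul_one_div, lt_div_iff₀ h4]
      linarith
    have h5 := sum_lt_sum_of_nonempty (nonempty_range_iff.2 hn0.ne') h1
    rw [← mul_sum] at h5
    have h6 : (∑ i ∈ range n, ((X.filter (fun x => i + 1 ≤ r x)).card : ℝ)) = n * A.card := by
      exact_mod_cast hlev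
    rw [h6] at h5
    have h7 := harm n
    have hLA : (0 : ℝ) ≤ L * A.card := by positivity
    have h8 := mul_le_mul_of_nonneg_left h7 hLA
    have h9 : 2 * (L : ℝ) ≤ Real.sqrt n := by
      apply Real.le_sqrt_of_sq_le
      have : ((4 * L ^ 2 : ℕ) : ℝ) ≤ n := by exact_mod_cast hn
      push_cast at this
      nlinarith
    have hs : Real.sqrt n ^ 2 = n := Real.sq_sqrt (Nat.cast_nonneg n)
    have hs0 : 0 ≤ Real.sqrt n := Real.sqrt_nonneg _
    have hA0 : (0 : ℝ) < A.card := by exact_mod_cast hAc
    have h10 : (L : ℝ) * A.card * (2 * Real.sqrt n) ≤ n * A.card := by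
      have e : (L : ℝ) * A.card * (2 * Real.sqrt n) = (2 * L * Real.sqrt n) * A.card := by ring
      rw [e]
      apply mul_le_mul_of_nonneg_right _ hA0.le
      nlinarith
    linarith
  set X' := X.filter (fun x => i + 1 ≤ r x) with hX'
  refine ⟨X', ?_, ?_, ?_⟩
  · intro x hx
    have h1 := (mem_filter.1 hx).1
    rw [hX, mem_image] at h1
    obtain ⟨s, hs, hsx⟩ := h1
    exact ⟨s.1, s.2, (mem_product.1 hs).2, hsx⟩
  · have : i + 1 ≤ n := by
      have := mem_range.1 hi
      omega
    exact hij.trans (Nat.mul_le_mul_right _ this)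
  · intro E hE
    have h1 : (i + 1) * (X'.filter E).card ≤ A.card := by
      have h2 : (i + 1) * (X'.filter E).card ≤ ∑ x ∈ X'.filter E, r x := by
        rw [mul_comm, ← smul_eq_mul]
        apply card_nsmul_le_sum
        intro x hx
        exact (mem_filter.1 (mem_filter.1 hx).1).2
      have h3 : ∑ x ∈ X'.filter E, r x ≤ (P.filter (fun s => E (F s.1 s.2))).card := by
        have h4 : ∑ x ∈ X'.filter E, r x =
            ((X'.filter E).biUnion (fun x => P.filter (fun s => F s.1 s.2 = x))).card := by
          rw [card_biUnion]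
          intro x _ y _ hxy
          rw [Function.onFun, disjoint_left]
          intro s hs ht
          exact hxy ((mem_filter.1 hs).2.symm.trans (mem_filter.1 ht).2)
        rw [h4]
        apply card_le_card
        intro s hs
        rw [mem_biUnion] at hs
        obtain ⟨x, hx, hs⟩ := hs
        rw [mem_filter] at hs ⊢
        refine ⟨hs.1, ?_⟩
        rw [hs.2]
        exact (mem_filter.1 hx).2
      have h5 : (P.filter (fun s => E (F s.1 s.2))).card ≤ A.card := by
        apply card_le_card_of_injOn (fun s => s.2)
        · intro s hs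
          exact (mem_product.1 (mem_filter.1 hs).1).2
        · intro s hs t ht hst
          simp only [coe_filter, Set.mem_setOf_eq, hP, mem_product, mem_univ, true_and] at hs ht
          simp only at hst
          have h6 : s.1 = t.1 := by
            apply hE s.2 hs.1 s.1 t.1 hs.2
            rw [hst]
            exact ht.2
          exact Prod.ext h6 hst
      exact h2.trans (h3.trans h5)
    have h2 : (i + 1) * (L * (X'.filter E).card) ≤ (i + 1) * X'.card := by
      calc (i + 1) * (L * (X'.filter E).card) = L * ((i + 1) * (X'.filter E).card) := by ring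
        _ ≤ L * A.card := Nat.mul_le_mul_left _ h1
        _ ≤ (i + 1) * X'.card := hij
    exact Nat.le_of_mul_le_mul_left h2 (Nat.succ_pos i)

end Pool.Agent.T2H12.AF
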