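import Pool.Agent.T2H12.AF.Stm
import Pool.Agent.T2H12.KR.Mult
import Pool.Agent.T2H12.KG.Main

/-!
# AF: the two known theorems MULT and DICH
-/

set_option autoImplicit false

namespace Pool.Agent.T2H12.AF

open Finset
open scoped Classical

theorem pMULT : S_MULT := by
  intro k m hk hm ε hε hε1
  exact Pool.Agent.T2H12.KR.mult_main k m hk hm hε hε1

theorem pDICH : S_DICH := by
  intro k m hk hm ε hε hε1
  have hmr : (1 : ℝ) ≤ m := by exact_mod_cast hm
  have hε' : ε / m ≤ ε := div_le_self hε.le hmr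
  obtain ⟨L, δ, c, hL, hδ, hc, h⟩ := Pool.Agent.T2H12.KG.dich k m hk (ε := ε / m) (by positivity)
    (hε'.trans hε1)
  refine ⟨L, δ, c, hL, hδ, hc, ?_⟩
  intro A Q hA h0 hQ hQc hpop
  have hA1 : (1 : ℝ) ≤ A.card := by exact_mod_cast card_pos.2 hA
  have hdet : Pool.Agent.T2H12.KG.Det Q Q δ A := by
    intro x hx
    have h1 : (((Pool.Agent.Y359.PE.cl A
        (fun y => fun p => if p ∈ Q then Pool.Agent.Y359.PE.fa y p else 0) x).image
        fun y => fun q => if q ∈ Q then Pool.Agent.Y359.PE.fa y q else 0).card : ℝ) ≤ 1 := by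
      have h2 : ((Pool.Agent.Y359.PE.cl A
          (fun y => fun p => if p ∈ Q then Pool.Agent.Y359.PE.fa y p else 0) x).image
          fun y => fun q => if q ∈ Q then Pool.Agent.Y359.PE.fa y q else 0).card ≤ 1 := by
        refine card_le_one.2 fun u hu v hv => ?_
        obtain ⟨b, hb, rfl⟩ := mem_image.1 hu
        obtain ⟨b', hb', rfl⟩ := mem_image.1 hv
        rw [(Pool.Agent.Y359.PE.mem_cl.1 hb).2, (Pool.Agent.Y359.PE.mem_cl.1 hb').2]
      exact_mod_cast h2
    refine h1.trans (Real.one_le_exp ?_)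
    exact mul_nonneg hδ.le (Real.log_nonneg hA1)
  have hpop' : ∀ p : ℕ, p.Prime → p ∉ Q → ∃ e : ℕ,
      L * ((A.filter fun a => Pool.Agent.Y359.PE.fa a p ≠ e).card : ℝ) ≤ A.card := by
    intro p hp hpQ
    refine ⟨0, le_trans ?_ (hpop p hp hpQ)⟩
    refine mul_le_mul_of_nonneg_left ?_ (by linarith)
    have h1 : (A.filter fun a => Pool.Agent.Y359.PE.fa a p ≠ 0) ⊆
        A.filter fun a => (p : ℤ) ∣ a := by
      intro a ha
      rw [mem_filter] at ha ⊢
      refine ⟨ha.1, ?_⟩
      have h2 : p ∣ a.natAbs := Nat.dvd_of_factorization_pos ha.2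
      exact Int.natCast_dvd.2 h2
    exact_mod_cast card_le_card h1
  rcases h A Q Q hA h0 hQ (Subset.refl _) hQc hdet hpop' with h1 | h1
  · left
    refine le_trans (mul_le_mul_of_nonneg_left ?_ hc.le) h1
    exact Real.rpow_le_rpow_of_exponent_le hA1 (by linarith)
  · right
    intro B hB
    have hB1 : (1 : ℝ) ≤ B.card := by exact_mod_cast card_pos.2 hB
    refine le_trans ?_ (h1 B hB)
    have h2 : ((A.card : ℝ) ^ m * B.card) ^ (1 - ε / m) =
        (A.card : ℝ) ^ ((m : ℝ) - ε) * (B.card : ℝ) ^ (1 - ε / m) := by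
      rw [Real.mul_rpow (by positivity) (by positivity), ← Real.rpow_natCast,
        ← Real.rpow_mul (by positivity)]
      congr 2
      field_simp
    rw [h2, ← mul_assoc]
    refine mul_le_mul_of_nonneg_left ?_ (by positivity)
    exact Real.rpow_le_rpow_of_exponent_le hB1 (by linarith)

end Pool.Agent.T2H12.AF
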