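import Pool.Agent.T2H12.AF.Stm

/-!
# AF: MAIN
-/

set_option autoImplicit false

namespace Pool.Agent.T2H12.AF

open Finset
open scoped Classical

namespace MAIN

lemma concl_le {k m : ℕ} {ε c c' : ℝ} {X : Finset ℤ} (h : c ≤ c') (H : Concl k m ε c' X) :
    Concl k m ε c X := by
  refine H.imp (fun h1 => ?_) fun h1 B hB => ?_
  · exact (mul_le_mul_of_nonneg_right h (by positivity)).trans h1
  · refine le_trans ?_ (h1 B hB)
    rw [mul_assoc, mul_assoc]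
    exact mul_le_mul_of_nonneg_right h (by positivity)

lemma concl_exp {k m : ℕ} {ε ε' c : ℝ} {X : Finset ℤ} (hX : X.Nonempty) (hc : 0 ≤ c)
    (h : ε' ≤ ε) (H : Concl k m ε' c X) : Concl k m ε c X := by
  have hn1 : (1 : ℝ) ≤ X.card := by exact_mod_cast card_pos.2 hX
  refine H.imp (fun h1 => le_trans ?_ h1) fun h1 B hB => le_trans ?_ (h1 B hB)
  · exact mul_le_mul_of_nonneg_left
      (Real.rpow_le_rpow_of_exponent_le hn1 (by linarith)) hc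
  · have hB1 : (1 : ℝ) ≤ B.card := by exact_mod_cast card_pos.2 hB
    refine mul_le_mul (mul_le_mul_of_nonneg_left
      (Real.rpow_le_rpow_of_exponent_le hn1 (by linarith)) hc)
      (Real.rpow_le_rpow_of_exponent_le hB1 (by linarith)) (by positivity) (by positivity)

theorem main1 (hMONO : S_MONO) (hSMALL : S_SMALL) (hCASE1 : S_CASE1) (hCASE2 : S_CASE2)
    (hSEL : S_SEL) (hRED : S_RED) (k m : ℕ) (hk : 1 ≤ k) (hm : 1 ≤ m) {ε : ℝ} (hε : 0 < ε)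
    (hε1 : ε ≤ 1) : ∃ (K : ℕ) (δ c : ℝ), 0 < δ ∧ 0 < c ∧ ∀ X : Finset ℤ, X.Nonempty →
      (X.card : ℝ) ^ (1 - δ) ≤
        ((X.filter fun x => K ≤ (nearSet ((X.card : ℝ) ^ δ) X x).card).card : ℝ) →
      Concl k m ε c X := by
  obtain ⟨K₁, δ₁, c₁, b₁, hK₁, hδ₁, hc₁, hb₁, H1⟩ := hCASE1 k m hk hm (ε / 2) (by linarith)
    (by linarith)
  obtain ⟨n, δ₂, c₂, b₂, hn, hδ₂, hc₂, hb₂, H2⟩ := hCASE2 k m hk hm (ε / 2) (by linarith)
    (by linarith)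
  have hkr : (1 : ℝ) ≤ k := by exact_mod_cast hk
  have hmr : (1 : ℝ) ≤ m := by exact_mod_cast hm
  obtain ⟨K, hK⟩ : ∃ K : ℕ, K = K₁ * n := ⟨_, rfl⟩
  obtain ⟨δ', hδ'⟩ : ∃ δ' : ℝ, δ' = min δ₁ δ₂ := ⟨_, rfl⟩
  have hδ'0 : 0 < δ' := by rw [hδ']; exact lt_min hδ₁ hδ₂
  obtain ⟨W, hW⟩ : ∃ W : ℝ, W = 1 + ((K : ℝ) + 1) * (2 * K + 2) := ⟨_, rfl⟩
  have hKr : (0 : ℝ) ≤ K := Nat.cast_nonneg K
  have hW1 : 1 ≤ W := by
    rw [hW]
    have : 0 ≤ ((K : ℝ) + 1) * (2 * K + 2) := by positivity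
    linarith
  have hW0 : 0 < W := by linarith
  obtain ⟨δ, hδd⟩ : ∃ δ : ℝ, δ = min (δ' / (4 * (K + 1))) (ε / (4 * W * (k + m))) := ⟨_, rfl⟩
  have hδ : 0 < δ := by
    rw [hδd]
    positivity
  have hd1 : δ * (K + 1) ≤ δ' / 4 := by
    have h1 : δ ≤ δ' / (4 * (K + 1)) := by rw [hδd]; exact min_le_left _ _
    rw [le_div_iff₀ (by positivity)] at h1
    linarith
  have hd2 : δ * W * (k + m) ≤ ε / 4 := by
    have h1 : δ ≤ ε / (4 * W * (k + m)) := by rw [hδd]; exact min_le_right _ _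
    rw [le_div_iff₀ (by positivity)] at h1
    linarith
  obtain ⟨e, he⟩ : ∃ e : ℝ, e = δ * W := ⟨_, rfl⟩
  have he0 : 0 < e := by rw [he]; positivity
  rw [← he] at hd2
  have he4 : e ≤ 1 / 4 := by
    have h1 : e * 1 ≤ e * (k + m) := mul_le_mul_of_nonneg_left (by linarith) he0.le
    linarith
  obtain ⟨C₀, hC₀⟩ : ∃ C₀ : ℝ, C₀ = 6 ^ (2 * K + 2) := ⟨_, rfl⟩
  have hC₀1 : 1 ≤ C₀ := by rw [hC₀]; exact one_le_pow₀ (by norm_num)
  obtain ⟨b, hb⟩ : ∃ b : ℝ, b = C₀ * max b₁ b₂ := ⟨_, rfl⟩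
  have hb1 : 1 ≤ b := by
    rw [hb]
    have : 1 ≤ max b₁ b₂ := hb₁.trans (le_max_left _ _)
    nlinarith
  obtain ⟨Z₀, hZ₀⟩ : ∃ Z₀ : ℝ, Z₀ = max (C₀ ^ 4) (2 ^ (4 / δ')) := ⟨_, rfl⟩
  obtain ⟨c', hc', HM⟩ := hMONO k m hk hm ε (min c₁ c₂) b e hε hε1 (lt_min hc₁ hc₂) hb1 he0.le
    (by linarith)
  obtain ⟨c'', hc'', HS⟩ := hSMALL k m hk ε Z₀ hε hε1
  refine ⟨K, δ, min c' c'', hδ, lt_min hc' hc'', ?_⟩
  intro X hX hG
  rcases le_or_gt (X.card : ℝ) Z₀ with hsm | hbig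
  · exact concl_le (min_le_right _ _) (HS X hX hsm)
  refine concl_le (min_le_left _ _) ?_
  obtain ⟨N, hN⟩ : ∃ N : ℝ, N = X.card := ⟨_, rfl⟩
  rw [← hN] at hG hbig
  have hN1 : 1 ≤ N := by rw [hN]; exact_mod_cast card_pos.2 hX
  have hN0 : 0 < N := by linarith
  have hNC : C₀ ^ 4 ≤ N := by
    have : C₀ ^ 4 ≤ Z₀ := by rw [hZ₀]; exact le_max_left _ _
    linarith
  have hN2 : (2 : ℝ) ^ (4 / δ') ≤ N := by
    have : (2 : ℝ) ^ (4 / δ') ≤ Z₀ := by rw [hZ₀]; exact le_max_right _ _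
    linarith
  have hM1 : 1 ≤ N ^ δ := Real.one_le_rpow hN1 hδ.le
  obtain ⟨G, hGd⟩ : ∃ G : Finset ℤ, G = X.filter fun x => K ≤ (nearSet (N ^ δ) X x).card :=
    ⟨_, rfl⟩
  rw [← hGd] at hG
  have hG0 : (0 : ℝ) < G.card := lt_of_lt_of_le (by positivity) hG
  have hGn : G.Nonempty := card_pos.1 (by exact_mod_cast hG0)
  obtain ⟨A, S, hA, hSc, hS, hGA⟩ := hRED K (N ^ δ) hM1 X G hGn (by
    intro x hx
    rw [hGd] at hx
    exact (mem_filter.1 hx).2)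
  have hpow : ((N ^ δ) ^ (K + 1) : ℝ) = N ^ (δ * (K + 1)) := by
    rw [← Real.rpow_natCast, ← Real.rpow_mul hN0.le]
    push_cast
    rfl
  rw [hpow] at hS hGA
  have hA1 : (1 : ℝ) ≤ A.card := by exact_mod_cast card_pos.2 hA
  -- the size of `A`
  have hAe : N ^ (1 - e) ≤ C₀ * A.card := by
    have h1 : (6 * N ^ (δ * (K + 1))) ^ (2 * K + 2) = C₀ * N ^ (δ * (K + 1) * (2 * K + 2)) := by
      rw [mul_pow, hC₀]
      congr 1
      rw [← Real.rpow_natCast, ← Real.rpow_mul hN0.le]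
      push_cast
      rfl
    rw [h1] at hGA
    have h2 : N ^ (1 - δ) ≤ C₀ * N ^ (δ * (K + 1) * (2 * K + 2)) * A.card := hG.trans hGA
    have h3 : N ^ (1 - δ) = N ^ (δ * (K + 1) * (2 * K + 2)) * N ^ (1 - e) := by
      rw [← Real.rpow_add hN0]
      congr 1
      rw [he, hW]
      ring
    rw [h3] at h2
    have h4 : N ^ (δ * (K + 1) * (2 * K + 2)) * N ^ (1 - e) ≤
        N ^ (δ * (K + 1) * (2 * K + 2)) * (C₀ * A.card) := by
      refine h2.trans (le_of_eq ?_)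
      ring
    exact le_of_mul_le_mul_left h4 (by positivity)
  have hAhalf : N ^ (1 / 2 : ℝ) ≤ A.card := by
    have h1 : C₀ ≤ N ^ (1 / 4 : ℝ) := by
      have h2 : (C₀ ^ 4) ^ (1 / 4 : ℝ) ≤ N ^ (1 / 4 : ℝ) :=
        Real.rpow_le_rpow (by positivity) hNC (by norm_num)
      have h3 : (C₀ ^ 4) ^ (1 / 4 : ℝ) = C₀ := by
        rw [← Real.rpow_natCast, ← Real.rpow_mul (by linarith)]
        norm_num
      rwa [h3] at h2
    have h2 : N ^ (3 / 4 : ℝ) ≤ N ^ (1 - e) :=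
      Real.rpow_le_rpow_of_exponent_le hN1 (by linarith)
    have h3 : N ^ (1 / 4 : ℝ) * N ^ (1 / 2 : ℝ) = N ^ (3 / 4 : ℝ) := by
      rw [← Real.rpow_add hN0]
      norm_num
    have h4 : C₀ * N ^ (1 / 2 : ℝ) ≤ C₀ * A.card := by
      calc C₀ * N ^ (1 / 2 : ℝ) ≤ N ^ (1 / 4 : ℝ) * N ^ (1 / 2 : ℝ) :=
            mul_le_mul_of_nonneg_right h1 (by positivity)
        _ = N ^ (3 / 4 : ℝ) := h3
        _ ≤ C₀ * A.card := h2.trans hAe
    exact le_of_mul_le_mul_left h4 (by linarith)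
  have hcoef : 2 * N ^ (δ * (K + 1)) ≤ (A.card : ℝ) ^ δ' := by
    have h1 : (N ^ (1 / 2 : ℝ)) ^ δ' ≤ (A.card : ℝ) ^ δ' :=
      Real.rpow_le_rpow (by positivity) hAhalf hδ'0.le
    refine le_trans ?_ h1
    rw [← Real.rpow_mul hN0.le]
    have h2 : (2 : ℝ) ≤ N ^ (δ' / 4) := by
      have h3 : ((2 : ℝ) ^ (4 / δ')) ^ (δ' / 4) ≤ N ^ (δ' / 4) :=
        Real.rpow_le_rpow (by positivity) hN2 (by positivity)
      have h4 : ((2 : ℝ) ^ (4 / δ')) ^ (δ' / 4) = 2 := by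
        rw [← Real.rpow_mul (by norm_num)]
        have : 4 / δ' * (δ' / 4) = 1 := by field_simp
        rw [this, Real.rpow_one]
      rwa [h4] at h3
    calc 2 * N ^ (δ * (K + 1)) ≤ N ^ (δ' / 4) * N ^ (δ' / 4) :=
          mul_le_mul h2 (Real.rpow_le_rpow_of_exponent_le hN1 hd1) (by positivity) (by positivity)
      _ = N ^ (1 / 2 * δ') := by
          rw [← Real.rpow_add hN0]
          congr 1
          ring
  have hδ1 : (A.card : ℝ) ^ δ' ≤ (A.card : ℝ) ^ δ₁ :=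
    Real.rpow_le_rpow_of_exponent_le hA1 (by rw [hδ']; exact min_le_left _ _)
  have hδ2 : (A.card : ℝ) ^ δ' ≤ (A.card : ℝ) ^ δ₂ :=
    Real.rpow_le_rpow_of_exponent_le hA1 (by rw [hδ']; exact min_le_right _ _)
  -- the end of the proof, given a set `X'`
  have hend : ∀ (X' : Finset ℤ) (b' c₃ : ℝ), X'.Nonempty → (∀ x ∈ X', x ∈ X) →
      (A.card : ℝ) ≤ b' * X'.card → b' ≤ max b₁ b₂ → min c₁ c₂ ≤ c₃ →
      Concl k m (ε / 2) c₃ X' → Concl k m ε c' X := by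
    intro X' b' c₃ hX' hsub hAX hbb hcc hC
    refine HM X X' hsub hX' ?_ (concl_le hcc hC)
    rw [← hN]
    refine hAe.trans ?_
    have h1 : (0 : ℝ) ≤ X'.card := Nat.cast_nonneg _
    have h2 : (A.card : ℝ) ≤ max b₁ b₂ * X'.card :=
      hAX.trans (mul_le_mul_of_nonneg_right hbb h1)
    rw [hb, mul_assoc]
    exact mul_le_mul_of_nonneg_left h2 (by linarith)
  rcases hSEL K₁ n S hK₁ (fun s hs => (hS s hs).1) (by rw [hSc, hK]) with
    ⟨T, hTS, hTc, hT⟩ | ⟨f, hf, hff⟩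
  · obtain ⟨X', hX', hsub, hAX, hC⟩ := H1 A hA T hTc (fun s hs => (hS s (hTS hs)).1)
      (fun s hs => ((hS s (hTS hs)).2.1.trans hcoef).trans hδ1) hT
    refine hend X' b₁ c₁ hX' ?_ hAX (le_max_left _ _) (min_le_left _ _) hC
    intro x hx
    obtain ⟨s, hs, a, ha, rfl⟩ := hsub x hx
    exact (hS s (hTS hs)).2.2.2 a ha
  · obtain ⟨X', hX', hsub, hAX, hC⟩ := H2 A hA (fun i => (f i).1) (fun i => (f i).2)
      (fun i => (hS _ (hf i)).1) (fun i => ((hS _ (hf i)).2.1.trans hcoef).trans hδ2)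
      (fun i => ((hS _ (hf i)).2.2.1.trans hcoef).trans hδ2) hff
    refine hend X' b₂ c₂ hX' ?_ hAX (le_max_right _ _) (min_le_right _ _) hC
    intro x hx
    obtain ⟨i, a, ha, rfl⟩ := hsub x hx
    exact (hS _ (hf i)).2.2.2 a ha

end MAIN

theorem pMAIN (hMONO : S_MONO) (hSMALL : S_SMALL) (hCASE1 : S_CASE1) (hCASE2 : S_CASE2)
    (hSEL : S_SEL) (hRED : S_RED) : S_MAIN := by
  intro k m hk hm ε hε
  obtain ⟨K, δ, c, hδ, hc, H⟩ := MAIN.main1 hMONO hSMALL hCASE1 hCASE2 hSEL hRED k m hk hm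
    (ε := min ε 1) (by positivity) (min_le_right _ _)
  exact ⟨K, δ, c, hδ, hc, fun X hX hG => MAIN.concl_exp hX hc.le (min_le_left _ _) (H X hX hG)⟩

end Pool.Agent.T2H12.AF
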