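import Pool.Agent.T2H12.AF.Stm

/-! Package MONO of project AF. -/

set_option autoImplicit false

namespace Pool.Agent.T2H12.AF

open Finset
open scoped Classical

namespace MONO

theorem aux (j N : ℕ) (ε b e x y : ℝ) (hj : 1 ≤ j) (hjN : j ≤ N) (hε : 0 < ε) (hε1 : ε ≤ 1)
    (hb : 1 ≤ b) (he : 0 ≤ e) (hej : e * N ≤ ε / 2) (hx : 1 ≤ x) (hy : 0 < y)
    (h : x ^ (1 - e) ≤ b * y) :
    x ^ ((j : ℝ) - ε) ≤ b ^ N * y ^ ((j : ℝ) - ε / 2) := by
  have hj' : (1 : ℝ) ≤ j := by exact_mod_cast hj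
  have hjN' : (j : ℝ) ≤ N := by exact_mod_cast hjN
  have hx0 : 0 < x := by linarith
  have hb0 : 0 < b := by linarith
  have hp : 0 ≤ (j : ℝ) - ε / 2 := by linarith
  have h1 : x ^ ((j : ℝ) - ε) ≤ x ^ ((1 - e) * ((j : ℝ) - ε / 2)) := by
    apply Real.rpow_le_rpow_of_exponent_le hx
    have h2 : e * j ≤ e * N := mul_le_mul_of_nonneg_left hjN' he
    have h3 : 0 ≤ e * ε := mul_nonneg he hε.le
    nlinarith
  have h2 : x ^ ((1 - e) * ((j : ℝ) - ε / 2)) ≤ (b * y) ^ ((j : ℝ) - ε / 2) := by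
    rw [Real.rpow_mul hx0.le]
    exact Real.rpow_le_rpow (Real.rpow_nonneg hx0.le _) h hp
  have h3 : (b * y) ^ ((j : ℝ) - ε / 2) = b ^ ((j : ℝ) - ε / 2) * y ^ ((j : ℝ) - ε / 2) :=
    Real.mul_rpow hb0.le hy.le
  have h4 : b ^ ((j : ℝ) - ε / 2) ≤ b ^ N := by
    rw [← Real.rpow_natCast b N]
    apply Real.rpow_le_rpow_of_exponent_le hb
    linarith
  calc x ^ ((j : ℝ) - ε) ≤ x ^ ((1 - e) * ((j : ℝ) - ε / 2)) := h1
    _ ≤ (b * y) ^ ((j : ℝ) - ε / 2) := h2
    _ = b ^ ((j : ℝ) - ε / 2) * y ^ ((j : ℝ) - ε / 2) := h3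
    _ ≤ b ^ N * y ^ ((j : ℝ) - ε / 2) :=
      mul_le_mul_of_nonneg_right h4 (Real.rpow_nonneg hy.le _)

theorem prodSet_mono (k : ℕ) (X X' : Finset ℤ) (h : X' ⊆ X) : prodSet k X' ⊆ prodSet k X := by
  unfold prodSet
  apply Finset.image_subset_image
  intro f hf
  rw [Fintype.mem_piFinset] at hf ⊢
  exact fun i => h (hf i)

theorem sumPlus_mono (m : ℕ) (X X' B : Finset ℤ) (h : X' ⊆ X) : sumPlus m X' B ⊆ sumPlus m X B := by
  unfold sumPlus
  apply Finset.image_subset_image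
  apply Finset.product_subset_product _ (Finset.Subset.refl _)
  intro f hf
  rw [Fintype.mem_piFinset] at hf ⊢
  exact fun i => h (hf i)

end MONO

theorem pMONO : S_MONO := by
  intro k m hk hm ε c b e hε hε1 hc hb he hekm
  have hb0 : 0 < b := by linarith
  have hbp : 0 < b ^ (k + m) := pow_pos hb0 _
  refine ⟨c / b ^ (k + m), div_pos hc hbp, ?_⟩
  intro X X' hsub hne hcard hcon
  have hy : (0 : ℝ) < X'.card := by exact_mod_cast hne.card_pos
  have hx : (1 : ℝ) ≤ X.card := by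
    have : 1 ≤ X.card := (hne.mono hsub).card_pos
    exact_mod_cast this
  have hN : e * ((k + m : ℕ) : ℝ) ≤ ε / 2 := by push_cast; exact hekm
  rcases hcon with hcon | hcon
  · left
    have h1 := MONO.aux k (k + m) ε b e X.card X'.card hk (Nat.le_add_right _ _) hε hε1 hb he hN hx hy hcard
    have h2 : ((prodSet k X').card : ℝ) ≤ (prodSet k X).card := by
      exact_mod_cast Finset.card_le_card (MONO.prodSet_mono k X X' hsub)
    calc c / b ^ (k + m) * (X.card : ℝ) ^ ((k : ℝ) - ε)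
        ≤ c / b ^ (k + m) * (b ^ (k + m) * (X'.card : ℝ) ^ ((k : ℝ) - ε / 2)) :=
          mul_le_mul_of_nonneg_left h1 (div_pos hc hbp).le
      _ = c * (X'.card : ℝ) ^ ((k : ℝ) - ε / 2) := by
          field_simp
      _ ≤ (prodSet k X').card := hcon
      _ ≤ (prodSet k X).card := h2
  · right
    intro B hB
    have hB1 : (1 : ℝ) ≤ B.card := by exact_mod_cast hB.card_pos
    have h1 := MONO.aux m (k + m) ε b e X.card X'.card hm (Nat.le_add_left _ _) hε hε1 hb he hN hx hy hcard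
    have h2 : ((sumPlus m X' B).card : ℝ) ≤ (sumPlus m X B).card := by
      exact_mod_cast Finset.card_le_card (MONO.sumPlus_mono m X X' B hsub)
    have h3 : (B.card : ℝ) ^ (1 - ε) ≤ (B.card : ℝ) ^ (1 - ε / 2) := by
      apply Real.rpow_le_rpow_of_exponent_le hB1
      linarith
    calc c / b ^ (k + m) * (X.card : ℝ) ^ ((m : ℝ) - ε) * (B.card : ℝ) ^ (1 - ε)
        ≤ c / b ^ (k + m) * (b ^ (k + m) * (X'.card : ℝ) ^ ((m : ℝ) - ε / 2)) *
            (B.card : ℝ) ^ (1 - ε / 2) := by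
          apply mul_le_mul _ h3 (Real.rpow_nonneg (by linarith) _)
          · have := Real.rpow_nonneg hy.le ((m : ℝ) - ε / 2)
            positivity
          · exact mul_le_mul_of_nonneg_left h1 (div_pos hc hbp).le
      _ = c * (X'.card : ℝ) ^ ((m : ℝ) - ε / 2) * (B.card : ℝ) ^ (1 - ε / 2) := by
          field_simp
      _ ≤ (sumPlus m X' B).card := hcon B hB
      _ ≤ (sumPlus m X B).card := h2

end Pool.Agent.T2H12.AF
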