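import Pool.Agent.T2H12.AF.Stm

/-!
# Project AF, package RED: the reduction to a fixed system of integer affine forms
-/

set_option autoImplicit false

namespace Pool.Agent.T2H12.AF

open Finset
open scoped Classical

namespace RED

/-- the data of one element -/
lemma data (K : ℕ) (M : ℝ) (hM : 1 ≤ M) (X : Finset ℤ) (x : ℤ) (h : K ≤ (nearSet M X x).card) :
    ∃ (P s : ℤ) (S : Finset (ℤ × ℤ)), P ≠ 0 ∧ |(P : ℝ)| ≤ 2 * M ^ (K + 1) ∧
      |(s : ℝ)| ≤ 2 * M ^ (K + 1) ∧ x = P * (x / P) + s ∧ S.card = K ∧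
      ∀ t ∈ S, t.1 ≠ 0 ∧ |(t.1 : ℝ)| ≤ 2 * M ^ (K + 1) ∧ |(t.2 : ℝ)| ≤ 2 * M ^ (K + 1) ∧
        t.1 * (x / P) + t.2 ∈ X := by
  obtain ⟨Y, hY, hYc⟩ := Finset.exists_subset_card_eq h
  have hY' : ∀ y ∈ Y, y ∈ X ∧ ∃ p q r : ℤ, p ≠ 0 ∧ q ≠ 0 ∧ |(p : ℝ)| ≤ M ∧ |(q : ℝ)| ≤ M ∧
      |(r : ℝ)| ≤ M ∧ p * y = q * x + r := fun y hy => Finset.mem_filter.1 (hY hy)
  choose! p q r hp0 hq0 hpM hqM hrM heq using fun y hy => (hY' y hy).2
  have hM0 : (0 : ℝ) ≤ M := by linarith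
  have hMK1 : M ^ K ≤ M ^ (K + 1) := pow_le_pow_right₀ hM (Nat.le_succ K)
  have hMpos : 0 < M ^ (K + 1) := by positivity
  set P : ℤ := ∏ y ∈ Y, p y with hP
  have hP0 : P ≠ 0 := Finset.prod_ne_zero_iff.2 fun y hy => hp0 y hy
  have hprod : ∀ Z : Finset ℤ, Z ⊆ Y → |((∏ y ∈ Z, p y : ℤ) : ℝ)| ≤ M ^ Z.card := by
    intro Z hZ
    rw [Int.cast_prod, Finset.abs_prod]
    calc ∏ y ∈ Z, |(p y : ℝ)| ≤ ∏ _y ∈ Z, M :=
          Finset.prod_le_prod (fun y _ => abs_nonneg _) (fun y hy => hpM y (hZ hy))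
      _ = M ^ Z.card := by rw [Finset.prod_const]
  have hPle : |(P : ℝ)| ≤ M ^ K := by
    have := hprod Y (Finset.Subset.refl Y)
    rwa [hYc] at this
  have hs0 : 0 ≤ x % P := Int.emod_nonneg x hP0
  have hs1 : x % P < |P| := Int.emod_lt_abs x hP0
  have hsle : |((x % P : ℤ) : ℝ)| ≤ M ^ K := by
    rw [abs_of_nonneg (by exact_mod_cast hs0)]
    have h1 : ((x % P : ℤ) : ℝ) ≤ ((|P| : ℤ) : ℝ) := by exact_mod_cast hs1.le
    rw [Int.cast_abs] at h1
    exact h1.trans hPle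
  have hx : x = P * (x / P) + x % P := (Int.mul_ediv_add_emod x P).symm
  let c : ℤ → ℤ := fun y => ∏ y' ∈ Y.erase y, p y'
  have hc : ∀ y ∈ Y, p y * c y = P := fun y hy => Finset.mul_prod_erase Y p hy
  let l : ℤ → ℤ := fun y => q y * c y
  let b : ℤ → ℤ := fun y => y - l y * (x / P)
  have hinj : Function.Injective fun y => (l y, b y) := by
    intro y y' hyy
    have h1 := (Prod.mk.inj hyy).1
    have h2 := (Prod.mk.inj hyy).2
    simp only [b] at h2
    rw [h1] at h2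
    linarith
  refine ⟨P, x % P, Y.image fun y => (l y, b y), hP0, by linarith, by linarith, hx, ?_, ?_⟩
  · rw [Finset.card_image_of_injective _ hinj, hYc]
  · intro t ht
    obtain ⟨y, hy, rfl⟩ := Finset.mem_image.1 ht
    have hc0 : c y ≠ 0 := Finset.prod_ne_zero_iff.2 fun y' hy' => hp0 y' (Finset.mem_of_mem_erase hy')
    have hcM : |(c y : ℝ)| ≤ M ^ K := by
      have h1 := hprod (Y.erase y) (Finset.erase_subset _ _)
      refine h1.trans (pow_le_pow_right₀ hM ?_)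
      rw [← hYc]
      exact Finset.card_le_card (Finset.erase_subset _ _)
    refine ⟨mul_ne_zero (hq0 y hy) hc0, ?_, ?_, ?_⟩
    · simp only [l]
      rw [Int.cast_mul, abs_mul]
      calc |(q y : ℝ)| * |(c y : ℝ)| ≤ M * M ^ K :=
            mul_le_mul (hqM y hy) hcM (abs_nonneg _) hM0
        _ = M ^ (K + 1) := by rw [pow_succ]; ring
        _ ≤ 2 * M ^ (K + 1) := by linarith
    · simp only
      have h1 : p y * b y = q y * (x % P) + r y := by
        have h2 := heq y hy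
        have h3 := hc y hy
        have h4 : q y * x = q y * (P * (x / P) + x % P) := by rw [← hx]
        simp only [b, l]
        calc p y * (y - q y * c y * (x / P)) = p y * y - q y * (p y * c y) * (x / P) := by ring
          _ = q y * x + r y - q y * P * (x / P) := by rw [h2, h3]
          _ = q y * (x % P) + r y := by rw [h4]; ring
      have h5 : (1 : ℝ) ≤ |(p y : ℝ)| := by
        have : (1 : ℤ) ≤ |p y| := Int.one_le_abs (hp0 y hy)
        rw [← Int.cast_abs]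
        exact_mod_cast this
      have h6 : |(p y : ℝ)| * |(b y : ℝ)| ≤ M * M ^ K + M := by
        rw [← abs_mul, ← Int.cast_mul, h1, Int.cast_add, Int.cast_mul]
        refine (abs_add_le _ _).trans ?_
        rw [abs_mul]
        exact add_le_add (mul_le_mul (hqM y hy) hsle (abs_nonneg _) hM0) (hrM y hy)
      have h7 : M ≤ M ^ (K + 1) := by
        calc M = M ^ 1 := (pow_one M).symm
          _ ≤ M ^ (K + 1) := pow_le_pow_right₀ hM (by omega)
      have h8 : |(b y : ℝ)| ≤ |(p y : ℝ)| * |(b y : ℝ)| := le_mul_of_one_le_left (abs_nonneg _) h5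
      have h9 : M * M ^ K = M ^ (K + 1) := by rw [pow_succ]; ring
      linarith
    · simp only [b]
      have h1 : l y * (x / P) + (y - l y * (x / P)) = y := by ring
      rw [h1]
      exact (hY' y hy).1

lemma mem_box {R : ℝ} {a : ℤ} (h : |(a : ℝ)| ≤ R) : a ∈ Finset.Icc (-⌊R⌋) ⌊R⌋ := by
  have h1 := abs_le.1 h
  rw [Finset.mem_Icc]
  constructor
  · have h2 : -a ≤ ⌊R⌋ := Int.le_floor.2 (by push_cast; linarith)
    linarith
  · exact Int.le_floor.2 h1.2

end RED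

open RED in
theorem pRED : S_RED := by
  intro K M hM X G hG hK
  choose! P s S hP0 hPM hsM hx hSc hS using fun x hx => data K M hM X x (hK x hx)
  set R : ℝ := 2 * M ^ (K + 1) with hR
  have hMpos : 1 ≤ M ^ (K + 1) := one_le_pow₀ hM
  have hR2 : 2 ≤ R := by rw [hR]; linarith
  set I : Finset ℤ := Finset.Icc (-⌊R⌋) ⌊R⌋ with hI
  have hfl : 2 ≤ ⌊R⌋ := Int.le_floor.2 (by push_cast; exact hR2)
  have hIcard : (I.card : ℝ) ≤ 6 * M ^ (K + 1) := by
    rw [hI, Int.card_Icc]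
    have h1 : (((⌊R⌋ + 1 - -⌊R⌋).toNat : ℕ) : ℤ) = 2 * ⌊R⌋ + 1 := by
      rw [Int.toNat_of_nonneg (by linarith)]; ring
    have h2 : (((⌊R⌋ + 1 - -⌊R⌋).toNat : ℕ) : ℝ) = 2 * (⌊R⌋ : ℝ) + 1 := by exact_mod_cast h1
    rw [h2]
    have h3 : (⌊R⌋ : ℝ) ≤ R := Int.floor_le R
    have h4 : R = 2 * M ^ (K + 1) := hR
    linarith
  set D : Finset (ℤ × ℤ × Finset (ℤ × ℤ)) := I ×ˢ I ×ˢ Finset.powersetCard K (I ×ˢ I) with hD
  have hDcard : (D.card : ℝ) ≤ (6 * M ^ (K + 1)) ^ (2 * K + 2) := by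
    rw [hD, Finset.card_product, Finset.card_product, Finset.card_powersetCard, Finset.card_product]
    have h1 : (I.card * I.card).choose K ≤ (I.card * I.card) ^ K := Nat.choose_le_pow _ _
    have h2 : I.card * (I.card * (I.card * I.card).choose K) ≤ I.card ^ (2 * K + 2) := by
      calc I.card * (I.card * (I.card * I.card).choose K)
          ≤ I.card * (I.card * (I.card * I.card) ^ K) :=
            Nat.mul_le_mul_left _ (Nat.mul_le_mul_left _ h1)
        _ = I.card ^ (2 * K + 2) := by rw [← sq, ← pow_mul]; ring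
    calc ((I.card * (I.card * (I.card * I.card).choose K) : ℕ) : ℝ) ≤ ((I.card ^ (2 * K + 2) : ℕ) : ℝ) := by
          exact_mod_cast h2
      _ = (I.card : ℝ) ^ (2 * K + 2) := by push_cast; ring
      _ ≤ _ := pow_le_pow_left₀ (Nat.cast_nonneg _) hIcard _
  let φ : ℤ → ℤ × ℤ × Finset (ℤ × ℤ) := fun x => (P x, s x, S x)
  have hφ : ∀ x ∈ G, φ x ∈ D := by
    intro x hxG
    simp only [φ, hD, Finset.mem_product, Finset.mem_powersetCard]
    refine ⟨mem_box (hPM x hxG), mem_box (hsM x hxG), ?_, hSc x hxG⟩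
    intro t ht
    have h1 := hS x hxG t ht
    exact Finset.mem_product.2 ⟨mem_box h1.2.1, mem_box h1.2.2.1⟩
  have hDne : D.Nonempty := by
    obtain ⟨x, hxG⟩ := hG
    exact ⟨φ x, hφ x hxG⟩
  obtain ⟨δ, hδ, hmax⟩ := Finset.exists_max_image D (fun δ => (G.filter fun x => φ x = δ).card) hDne
  set G' : Finset ℤ := G.filter fun x => φ x = δ with hG'
  have hcount : G.card ≤ D.card * G'.card := by
    rw [Finset.card_eq_sum_card_fiberwise (f := φ) (t := D) (fun x hx => hφ x hx)]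
    calc ∑ b ∈ D, (G.filter fun x => φ x = b).card ≤ ∑ _b ∈ D, G'.card :=
          Finset.sum_le_sum fun b hb => hmax b hb
      _ = D.card * G'.card := by rw [Finset.sum_const, smul_eq_mul]
  have hG'ne : G'.Nonempty := by
    rw [← Finset.card_pos]
    by_contra h0
    have h1 : G'.card = 0 := by omega
    rw [h1, mul_zero] at hcount
    have := Finset.card_pos.2 hG
    omega
  have hG'm : ∀ x ∈ G', x ∈ G ∧ P x = δ.1 ∧ s x = δ.2.1 ∧ S x = δ.2.2 := by
    intro x hx'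
    obtain ⟨h1, h2⟩ := Finset.mem_filter.1 hx'
    simp only [φ] at h2
    exact ⟨h1, congrArg (fun t => t.1) h2, congrArg (fun t => t.2.1) h2, congrArg (fun t => t.2.2) h2⟩
  have hinj : Set.InjOn (fun x : ℤ => x / δ.1) (G' : Set ℤ) := by
    intro x hx1 y hy1 hxy
    obtain ⟨h1, h2, h3, -⟩ := hG'm x hx1
    obtain ⟨h4, h5, h6, -⟩ := hG'm y hy1
    have e1 := hx x h1
    have e2 := hx y h4
    rw [h2, h3] at e1
    rw [h5, h6] at e2
    simp only at hxy
    rw [e1, e2, hxy]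
  refine ⟨G'.image fun x : ℤ => x / δ.1, δ.2.2, hG'ne.image _, ?_, ?_, ?_⟩
  · obtain ⟨x, hx'⟩ := hG'ne
    obtain ⟨h1, -, -, h2⟩ := hG'm x hx'
    rw [← h2]
    exact hSc x h1
  · intro t ht
    obtain ⟨x, hx'⟩ := hG'ne
    obtain ⟨h1, -, -, h2⟩ := hG'm x hx'
    have h3 := hS x h1 t (by rw [h2]; exact ht)
    refine ⟨h3.1, h3.2.1, h3.2.2.1, ?_⟩
    intro a ha
    obtain ⟨y, hy, rfl⟩ := Finset.mem_image.1 ha
    obtain ⟨h4, h5, -, h6⟩ := hG'm y hy
    have h7 := hS y h4 t (by rw [h6]; exact ht)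
    rw [h5] at h7
    exact h7.2.2.2
  · rw [Finset.card_image_of_injOn hinj]
    calc (G.card : ℝ) ≤ ((D.card * G'.card : ℕ) : ℝ) := by exact_mod_cast hcount
      _ = (D.card : ℝ) * G'.card := by push_cast; ring
      _ ≤ _ := mul_le_mul_of_nonneg_right hDcard (Nat.cast_nonneg _)

end Pool.Agent.T2H12.AF
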