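import Pool.Agent.T2H12.AF.Stm

/-!
# Package SEL of the project AF
-/

set_option autoImplicit false

namespace Pool.Agent.T2H12.AF

open Finset
open scoped Classical

namespace SEL

/-- the slope of a pair -/
def slp (s : ℤ × ℤ) : ℚ := (s.2 : ℚ) / s.1

theorem slp_eq {s t : ℤ × ℤ} (hs : s.1 ≠ 0) (ht : t.1 ≠ 0) : slp s = slp t ↔ Prop2 s t := by
  have hs' : (s.1 : ℚ) ≠ 0 := by exact_mod_cast hs
  have ht' : (t.1 : ℚ) ≠ 0 := by exact_mod_cast ht
  unfold slp Prop2
  rw [div_eq_div_iff hs' ht']
  constructor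
  · intro h
    have h2 : s.2 * t.1 = t.2 * s.1 := by exact_mod_cast h
    linarith
  · intro h
    have h2 : s.2 * t.1 = t.2 * s.1 := by linarith
    exact_mod_cast h2

end SEL

open SEL in
theorem pSEL : S_SEL := by
  intro K n S hK hS hc
  by_cases hn : n ≤ (S.image slp).card
  · right
    obtain ⟨t, hts, htc⟩ := Finset.exists_subset_card_eq hn
    have e : Fin n ≃ t := (Finset.equivFinOfCardEq htc).symm
    have hex : ∀ i : Fin n, ∃ s ∈ S, slp s = (e i : ℚ) := fun i =>
      Finset.mem_image.1 (hts (e i).2)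
    choose f hf1 hf2 using hex
    refine ⟨f, hf1, ?_⟩
    intro i j hij h
    have h2 := (slp_eq (hS _ (hf1 i)) (hS _ (hf1 j))).2 h
    rw [hf2, hf2] at h2
    exact hij (e.injective (Subtype.ext h2))
  · left
    push Not at hn
    have hne : (S.image slp).Nonempty := by
      rw [Finset.image_nonempty, ← Finset.card_pos]
      have : 0 < K * n := Nat.mul_pos (by omega) (by omega)
      omega
    have hle : (S.image slp).card * K ≤ S.card := by
      refine le_trans ?_ hc
      rw [Nat.mul_comm]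
      exact Nat.mul_le_mul_left K hn.le
    obtain ⟨y, _, hy⟩ := Finset.exists_le_card_fiber_of_mul_le_card_of_maps_to
      (fun a ha => Finset.mem_image_of_mem slp ha) hne hle
    obtain ⟨T, hT, hTc⟩ := Finset.exists_subset_card_eq hy
    refine ⟨T, fun s hs => (Finset.mem_filter.1 (hT hs)).1, hTc, ?_⟩
    intro s hs t ht
    have h1 := Finset.mem_filter.1 (hT hs)
    have h2 := Finset.mem_filter.1 (hT ht)
    exact (slp_eq (hS _ h1.1) (hS _ h2.1)).1 (h1.2.trans h2.2.symm)

end Pool.Agent.T2H12.AF
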