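import Pool.Agent.T2H12.AF.Stm

set_option autoImplicit false

namespace Pool.Agent.T2H12.AF

open Finset
open scoped Classical

theorem pSMALL : S_SMALL := by
  intro k m hk ε Z hε hε1
  set M : ℝ := max 1 Z with hM
  have hM1 : 1 ≤ M := le_max_left _ _
  have hM0 : 0 < M := by linarith
  refine ⟨1 / M ^ k, by positivity, fun X hX hXZ => Or.inl ?_⟩
  have hk1 : (1 : ℝ) ≤ k := by exact_mod_cast hk
  have hcard : (1 : ℝ) ≤ (prodSet k X).card := by
    have : (prodSet k X).Nonempty := by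
      obtain ⟨x, hx⟩ := hX
      exact ⟨_, Finset.mem_image_of_mem _ (Fintype.mem_piFinset.2 fun _ => hx)⟩
    exact_mod_cast Finset.card_pos.2 this
  refine le_trans ?_ hcard
  rw [one_div, inv_mul_le_iff₀ (by positivity), mul_one]
  have hX0 : (0 : ℝ) ≤ X.card := Nat.cast_nonneg _
  calc (X.card : ℝ) ^ ((k : ℝ) - ε) ≤ M ^ ((k : ℝ) - ε) :=
        Real.rpow_le_rpow hX0 (hXZ.trans (le_max_right _ _)) (by linarith)
    _ ≤ M ^ (k : ℝ) := Real.rpow_le_rpow_of_exponent_le hM1 (by linarith)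
    _ = M ^ k := Real.rpow_natCast _ _

end Pool.Agent.T2H12.AF
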