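import Mathlib

/-!
# Project AF (helper12): MP_120218_co (very famous), sets with many affine neighbours of small height

THEOREM. For all `k, m ≥ 1`, `ε > 0` there are `K, δ, c` such that every finite set `X` of integers of which
at least `|X|^(1-δ)` elements `x` have at least `K` elements `y ∈ X` with `p y = q x + r` for some integers
`p, q, r` of absolute value at most `|X|^δ`, `p, q ≠ 0`, satisfies `|X^k| ≥ c |X|^(k-ε)` or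
`|mX + B| ≥ c |X|^(m-ε) |B|^(1-ε)` for all `B`.

Every package `XX` is the statement `S_XX`, in a file `Pool/Agent/T2H12/AF/XX.lean`
(`import Pool.Agent.T2H12.AF.Stm`, `namespace Pool.Agent.T2H12.AF`, own lemmas in a sub-namespace `XX`),
`theorem pXX (h : S_DEP) .. : S_XX`. No straight double quotes. `open Finset` and `open scoped Classical`
are in force here and may be used in the packages.
-/

set_option autoImplicit false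

namespace Pool.Agent.T2H12.AF

open Finset
open scoped Classical

/-- The set of all products of `k` elements of `A`. -/
def prodSet (k : ℕ) (A : Finset ℤ) : Finset ℤ :=
  (Fintype.piFinset fun _ : Fin k => A).image fun f => ∏ i, f i

/-- The set of all sums of `m` elements of `X` and an element of `B`. -/
def sumPlus (m : ℕ) (X B : Finset ℤ) : Finset ℤ :=
  ((Fintype.piFinset fun _ : Fin m => X) ×ˢ B).image fun s => ∑ i, s.1 i + s.2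

/-- The set of the elements `y` of `X` with `p y = q x + r` for some integers `p ≠ 0`, `q ≠ 0`, `r` of
absolute value at most `M`. -/
noncomputable def nearSet (M : ℝ) (X : Finset ℤ) (x : ℤ) : Finset ℤ :=
  X.filter fun y => ∃ p q r : ℤ, p ≠ 0 ∧ q ≠ 0 ∧ |(p : ℝ)| ≤ M ∧ |(q : ℝ)| ≤ M ∧ |(r : ℝ)| ≤ M ∧
    p * y = q * x + r

/-- Many products or many sums. -/
def Concl (k m : ℕ) (ε c : ℝ) (X : Finset ℤ) : Prop :=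
  c * (X.card : ℝ) ^ ((k : ℝ) - ε) ≤ (prodSet k X).card ∨
    ∀ B : Finset ℤ, B.Nonempty →
      c * (X.card : ℝ) ^ ((m : ℝ) - ε) * (B.card : ℝ) ^ (1 - ε) ≤ (sumPlus m X B).card

/-- The two pairs are proportional. -/
def Prop2 (s t : ℤ × ℤ) : Prop := s.1 * t.2 = t.1 * s.2

/-- MULT: known (`KR.mult_main`), by helper12. -/
def S_MULT : Prop := ∀ (k m : ℕ), 1 ≤ k → 1 ≤ m → ∀ ε : ℝ, 0 < ε → ε ≤ 1 →
  ∃ (K : ℕ) (δ c : ℝ), 0 < δ ∧ 0 < c ∧ ∀ X : Finset ℤ, X.Nonempty → ∀ Y : Finset ℤ,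
    (0 : ℤ) ∉ Y → (X.card : ℝ) ^ (1 - δ) ≤ Y.card →
    (∀ y ∈ Y, ∃ L : Finset ℤ, K ≤ L.card ∧
      ∀ l ∈ L, l ≠ 0 ∧ |(l : ℝ)| ≤ (X.card : ℝ) ^ δ ∧ l * y ∈ X) → Concl k m ε c X

/-- DICH: known (`KG.dich`), by helper12. -/
def S_DICH : Prop := ∀ (k m : ℕ), 1 ≤ k → 1 ≤ m → ∀ ε : ℝ, 0 < ε → ε ≤ 1 →
  ∃ L δ c : ℝ, 1 ≤ L ∧ 0 < δ ∧ 0 < c ∧ ∀ (A : Finset ℤ) (Q : Finset ℕ), A.Nonempty → (0 : ℤ) ∉ A →
    (∀ q ∈ Q, q.Prime) → (Q.card : ℝ) ≤ δ * Real.log A.card →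
    (∀ p : ℕ, p.Prime → p ∉ Q → L * ((A.filter fun a => (p : ℤ) ∣ a).card : ℝ) ≤ A.card) →
    Concl k m ε c A

/-- MONO (15 min, no deps). `c' = c / b^(k+m)`. If the first alternative holds for `X'`, then
`|prodSet k X| ≥ |prodSet k X'| ≥ c |X'|^(k-ε/2)` and `|X'| ≥ |X|^(1-e) / b`, so
`|X'|^(k-ε/2) ≥ b^(-(k+m)) |X|^((1-e)(k-ε/2))` and `(1-e)(k-ε/2) ≥ k - ε/2 - e k ≥ k - ε`
(`k - ε/2 > 0` because `ε ≤ 1 ≤ k`). The same for the sums (`sumPlus` is monotone in `X`), with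
`|B|^(1-ε) ≤ |B|^(1-ε/2)`. -/
def S_MONO : Prop := ∀ (k m : ℕ), 1 ≤ k → 1 ≤ m → ∀ ε c b e : ℝ, 0 < ε → ε ≤ 1 → 0 < c → 1 ≤ b → 0 ≤ e →
  e * (k + m) ≤ ε / 2 → ∃ c' : ℝ, 0 < c' ∧ ∀ X X' : Finset ℤ, X' ⊆ X → X'.Nonempty →
    (X.card : ℝ) ^ (1 - e) ≤ b * X'.card → Concl k m (ε / 2) c X' → Concl k m ε c' X

/-- SMALL (5 min, no deps). Small sets: `c' = 1 / max 1 Z ^ k`, the first alternative holds because
`1 ≤ |prodSet k X|`. -/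
def S_SMALL : Prop := ∀ (k m : ℕ), 1 ≤ k → ∀ ε Z : ℝ, 0 < ε → ε ≤ 1 → ∃ c' : ℝ, 0 < c' ∧
  ∀ X : Finset ℤ, X.Nonempty → (X.card : ℝ) ≤ Z → Concl k m ε c' X

/-- LEV (35 min, no deps). Level sets. Let `r x` be the number of the pairs `(i, a)`, `i < n`, `a ∈ A`, with
`F i a = x`; `r x ≤ n` since `F i` is injective on `A`. Put `X_j = {x : j ≤ r x}`. Then
`∑_{j=1}^n |X_j| = ∑_x r x = n |A|`. If `j |X_j| < L |A|` for all `1 ≤ j ≤ n`, then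
`n |A| < L |A| ∑_{j ≤ n} 1/j ≤ L |A| (1 + log n) ≤ L |A| 2 √n ≤ n |A|`
(`harmonic_le_one_add_log`, `log n = 2 log √n ≤ 2 (√n - 1)`, `2 L ≤ √n`), a contradiction. Take `X' = X_j` with
`j |X_j| ≥ L |A|`. For `E` as below `j |X' ∩ E| ≤ ∑_{x ∈ X' ∩ E} r x ≤ #{(i, a) : E (F i a)} ≤ |A|`, so
`L j |X' ∩ E| ≤ L |A| ≤ j |X'|`. -/
def S_LEV : Prop := ∀ (n L : ℕ), 1 ≤ L → 4 * L ^ 2 ≤ n → ∀ (A : Finset ℤ), A.Nonempty →
  ∀ F : Fin n → ℤ → ℤ, (∀ i, Set.InjOn (F i) (A : Set ℤ)) → ∃ X' : Finset ℤ,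
    (∀ x ∈ X', ∃ i, ∃ a ∈ A, F i a = x) ∧ L * A.card ≤ n * X'.card ∧ ∀ E : ℤ → Prop,
      (∀ a ∈ A, ∀ i j, E (F i a) → E (F j a) → i = j) → L * (X'.filter E).card ≤ X'.card

/-- BADP (20 min, no deps). `Q` is the union over `i ≠ j` of the sets of the prime factors of
`N = l i * b j - l j * b i ≠ 0`; a number `N ≠ 0`, `|N| ≤ 2 M²`, has at most
`log (2 M²) / log 2 ≤ 5 log M` prime factors (`2 ^ ω(N) ≤ N`, `M ≥ 2`). If `p` divides `l i * z + b i` and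
`l j * z + b j`, then it divides `l i * (l j * z + b j) - l j * (l i * z + b i) = N`. -/
def S_BADP : Prop := ∀ (n : ℕ) (l b : Fin n → ℤ) (M : ℝ), 2 ≤ M → (∀ i, |(l i : ℝ)| ≤ M) →
  (∀ i, |(b i : ℝ)| ≤ M) → (∀ i j, i ≠ j → l i * b j ≠ l j * b i) → ∃ Q : Finset ℕ,
    (∀ q ∈ Q, q.Prime) ∧ (Q.card : ℝ) ≤ 5 * n ^ 2 * Real.log M ∧ ∀ p : ℕ, p.Prime → p ∉ Q → ∀ z : ℤ,
      ∀ i j, (p : ℤ) ∣ l i * z + b i → (p : ℤ) ∣ l j * z + b j → i = j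

/-- CASE2 (40 min, deps DICH LEV BADP SMALL). Pairwise non-proportional forms. With `L, δ₁, c₁` of DICH let
`L' = ⌈2 L⌉₊` (natural), `n = 4 L'²`, `δ = δ₁ / (20 n²)`. LEV for `F i a = l i * a + b i` (injective because
`l i ≠ 0`) and `L'` gives `X₀` with `n |X₀| ≥ L' |A| ≥ |A|`; put `X' = X₀.erase 0`. For large `A` (`|X₀| ≥ 2`)
`|X'| ≥ |X₀| / 2 ≥ |A| / (2 n) ≥ |A|^(1/2)`. BADP with `M = |A|^δ ≥ 2` gives `Q` with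
`|Q| ≤ 5 n² δ log |A| ≤ δ₁ / 4 log |A| ≤ δ₁ log |X'|`. For `p ∉ Q` LEV with `E x = p ∣ x` gives
`L' |{x ∈ X₀ : p ∣ x}| ≤ |X₀| ≤ 2 |X'|`, so `L |{x ∈ X' : p ∣ x}| ≤ |X'|`; DICH for `X'`. For small `A` take
`X' = X₀` and SMALL (`|X₀| ≤ n |A|`). -/
def S_CASE2 : Prop := ∀ (k m : ℕ), 1 ≤ k → 1 ≤ m → ∀ ε : ℝ, 0 < ε → ε ≤ 1 →
  ∃ (n : ℕ) (δ c b : ℝ), 1 ≤ n ∧ 0 < δ ∧ 0 < c ∧ 1 ≤ b ∧ ∀ A : Finset ℤ, A.Nonempty → ∀ l r : Fin n → ℤ,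
    (∀ i, l i ≠ 0) → (∀ i, |(l i : ℝ)| ≤ (A.card : ℝ) ^ δ) → (∀ i, |(r i : ℝ)| ≤ (A.card : ℝ) ^ δ) →
    (∀ i j, i ≠ j → l i * r j ≠ l j * r i) → ∃ X' : Finset ℤ, X'.Nonempty ∧
      (∀ x ∈ X', ∃ i, ∃ a ∈ A, l i * a + r i = x) ∧ (A.card : ℝ) ≤ b * X'.card ∧ Concl k m ε c X'

/-- CASE1 (40 min, deps MULT SMALL). Proportional forms. Let `K, δ₁` be as in MULT (increase `K` to be at least
one), `δ = δ₁`, `b = 2`. Fix `s₀ = (l₀, r₀) ∈ S`, `g = gcd l₀ r₀`, `(λ, β) = (l₀, r₀) / g` (coprime). Every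
`s ∈ S` is `t (λ, β)` with an integer `t ≠ 0` (`λ s.2 = β s.1`, so `λ ∣ s.1`), `|t| ≤ |s.1|`, and different
`s` have different `t`. Let `X' = {s.1 * a + s.2}` (`|X'| ≤ K |A|` if we first choose a subset of `S` with
exactly `K` elements; `|X'| ≥ |A|`), `Y = {λ a + β : a ∈ A} \ {0}`, `|Y| ≥ |A| - 1 ≥ |A| / 2 ≥ (K |A|)^(1-δ₁)`
for large `A`. MULT for `X'`, `Y`, `L = {t}` (`|A| ≤ |X'|`). Small `A`: SMALL. -/
def S_CASE1 : Prop := ∀ (k m : ℕ), 1 ≤ k → 1 ≤ m → ∀ ε : ℝ, 0 < ε → ε ≤ 1 →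
  ∃ (K : ℕ) (δ c b : ℝ), 1 ≤ K ∧ 0 < δ ∧ 0 < c ∧ 1 ≤ b ∧ ∀ A : Finset ℤ, A.Nonempty →
    ∀ S : Finset (ℤ × ℤ), S.card = K → (∀ s ∈ S, s.1 ≠ 0) → (∀ s ∈ S, |(s.1 : ℝ)| ≤ (A.card : ℝ) ^ δ) →
    (∀ s ∈ S, ∀ t ∈ S, Prop2 s t) → ∃ X' : Finset ℤ, X'.Nonempty ∧
      (∀ x ∈ X', ∃ s ∈ S, ∃ a ∈ A, s.1 * a + s.2 = x) ∧ (A.card : ℝ) ≤ b * X'.card ∧ Concl k m ε c X'

/-- SEL (25 min, no deps). Proportionality is an equivalence relation on `S` (first coordinates not zero). If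
every class has fewer than `K` elements, there are at least `n` classes; choose representatives. -/
def S_SEL : Prop := ∀ (K n : ℕ) (S : Finset (ℤ × ℤ)), 1 ≤ K → (∀ s ∈ S, s.1 ≠ 0) → K * n ≤ S.card →
  (∃ T : Finset (ℤ × ℤ), T ⊆ S ∧ T.card = K ∧ ∀ s ∈ T, ∀ t ∈ T, Prop2 s t) ∨
  ∃ f : Fin n → ℤ × ℤ, (∀ i, f i ∈ S) ∧ ∀ i j, i ≠ j → ¬ Prop2 (f i) (f j)

/-- RED (45 min, no deps). For `x ∈ G` choose `K` elements `y_i` of `nearSet M X x` with their `p_i, q_i, r_i`, and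
`P = ∏ p_i` (so `1 ≤ |P| ≤ M^K`), `s = x % P`, `z = x / P` (`x = P z + s`, `0 ≤ s < |P|`). Then
`y_i = l_i z + b_i` with `l_i = q_i (P / p_i)`, `b_i = (q_i s + r_i) / p_i` (an integer, since `p_i` divides
`q_i x + r_i` and `P`); `l_i ≠ 0`, `|l_i| ≤ M^(K+1)`, `|b_i| ≤ |q_i s + r_i| ≤ 2 M^(K+1)`, and the `K` pairs
`(l_i, b_i)` are different because the `y_i` are. The number of the possible data `(P, s, S)`,
`S = {(l_i, b_i)}`, is at most `(3 R)^(2K+2)`, `R = 2 M^(K+1)` (an interval `[-R, R]` contains at most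
`3 R` integers; `Nat.choose_le_pow`); for fixed data `x ↦ z` is injective. Take the most popular data. -/
def S_RED : Prop := ∀ (K : ℕ) (M : ℝ), 1 ≤ M → ∀ X G : Finset ℤ, G.Nonempty →
  (∀ x ∈ G, K ≤ (nearSet M X x).card) → ∃ (A : Finset ℤ) (S : Finset (ℤ × ℤ)), A.Nonempty ∧
    S.card = K ∧ (∀ s ∈ S, s.1 ≠ 0 ∧ |(s.1 : ℝ)| ≤ 2 * M ^ (K + 1) ∧ |(s.2 : ℝ)| ≤ 2 * M ^ (K + 1) ∧
      ∀ a ∈ A, s.1 * a + s.2 ∈ X) ∧ (G.card : ℝ) ≤ (6 * M ^ (K + 1)) ^ (2 * K + 2) * A.card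

/-- MAIN (by helper12, deps MONO SMALL CASE1 CASE2 SEL RED). -/
def S_MAIN : Prop := ∀ (k m : ℕ), 1 ≤ k → 1 ≤ m → ∀ ε : ℝ, 0 < ε → ∃ (K : ℕ) (δ c : ℝ), 0 < δ ∧ 0 < c ∧
  ∀ X : Finset ℤ, X.Nonempty →
    (X.card : ℝ) ^ (1 - δ) ≤
      ((X.filter fun x => K ≤ (nearSet ((X.card : ℝ) ^ δ) X x).card).card : ℝ) → Concl k m ε c X

end Pool.Agent.T2H12.AF
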